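import Pool.Agent.Helper752.Card.Transfer

set_option autoImplicit false

namespace Pool.Agent.Results.MP_92898d_an.RangesWithContinuum

open scoped Cardinal

/-- The cardinality function of the series `x`: the number of `ε : ℕ → {0,1}` (coded by Booleans)
with `∑ ε n x n = t`. -/
noncomputable def cardFn (x : ℕ → ℝ) (t : ℝ) : Cardinal.{0} :=
  #{ε : ℕ → Bool // ∑' n, (if ε n = true then x n else 0) = t}

/-- The set `K = {0, 1, 2, ..., ω, 𝔠}` of possible values. -/
def K : Set Cardinal.{0} := Set.range (fun n : ℕ => (n : Cardinal.{0})) ∪ {ℵ₀, 𝔠}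

/-- `C` is the range of the cardinality function of an absolutely convergent real series. -/
def IsRange (C : Set Cardinal.{0}) : Prop :=
  ∃ x : ℕ → ℝ, Summable (fun n => |x n|) ∧ Set.range (cardFn x) = C

/-- the sum attached to a 0-1 sequence. -/
noncomputable def f (x : ℕ → ℝ) (ε : ℕ → Bool) : ℝ := ∑' n, (if ε n = true then x n else 0)

lemma summable_f {x : ℕ → ℝ} (hx : Summable (fun n => |x n|)) (ε : ℕ → Bool) :
    Summable (fun n => if ε n = true then x n else 0) := by
  apply Summable.of_norm_bounded hx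
  intro n
  split_ifs
  · exact le_of_eq (Real.norm_eq_abs _)
  · simp

lemma zero_mem {x : ℕ → ℝ} (hx : Summable (fun n => |x n|)) : (0 : Cardinal) ∈ Set.range (cardFn x) := by
  refine ⟨∑' n, |x n| + 1, ?_⟩
  unfold cardFn
  rw [Cardinal.mk_eq_zero_iff]
  constructor
  rintro ⟨ε, hε⟩
  have h1 : ∑' n, (if ε n = true then x n else 0) ≤ ∑' n, |x n| := by
    apply (summable_f hx ε).tsum_le_tsum _ hx
    intro n
    split_ifs
    · exact le_abs_self _
    · exact abs_nonneg _
  rw [hε] at h1
  linarith

lemma cardFn_le (x : ℕ → ℝ) (t : ℝ) : cardFn x t ≤ 𝔠 := by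
  unfold cardFn
  rw [← Pool.Agent.Helper752.Card.mk_cantor]
  exact Cardinal.mk_subtype_le _

/-- infinitely many zero terms. -/
lemma inf_zeros {x : ℕ → ℝ} (hz : {n | x n = 0}.Infinite) (t : ℝ) :
    cardFn x t = 0 ∨ cardFn x t = 𝔠 := by
  classical
  by_cases he : Nonempty {ε : ℕ → Bool // ∑' n, (if ε n = true then x n else 0) = t}
  · right
    apply le_antisymm (cardFn_le x t)
    obtain ⟨ε0, hε0⟩ := he
    have : Infinite {n | x n = 0} := hz.to_subtype
    have h1 : #({n | x n = 0} → Bool) = 𝔠 := by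
      rw [← Cardinal.power_def, Cardinal.mk_bool, Cardinal.mk_eq_aleph0, Cardinal.two_power_aleph0]
    rw [← h1]
    unfold cardFn
    refine Cardinal.mk_le_of_injective (f := fun σ : {n | x n = 0} → Bool =>
      (⟨fun n => if h : x n = 0 then σ ⟨n, h⟩ else ε0 n, ?_⟩ :
        {ε : ℕ → Bool // ∑' n, (if ε n = true then x n else 0) = t})) ?_
    · rw [← hε0]
      apply tsum_congr
      intro n
      by_cases h : x n = 0
      · simp [h]
      · simp [h]
    · intro σ τ h
      funext ⟨n, hn⟩
      have h2 := congrFun (congrArg Subtype.val h) n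
      have hn' : x n = 0 := hn
      simpa [hn'] using h2
  · left
    unfold cardFn
    rw [Cardinal.mk_eq_zero_iff]
    exact not_nonempty_iff.1 he

/-- extension of a 0-1 sequence on the nonzero terms by zero. -/
noncomputable def ext (x : ℕ → ℝ) (σ : {n // ¬ x n = 0} → Bool) : ℕ → Bool :=
  fun n => by classical exact if h : x n = 0 then false else σ ⟨n, h⟩

/-- the number of representations supported on the nonzero terms. -/
noncomputable def G (x : ℕ → ℝ) (t : ℝ) : Cardinal.{0} :=
  #{σ : {n // ¬ x n = 0} → Bool // f x (ext x σ) = t}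

lemma fin_zeros {x : ℕ → ℝ} (hz : {n | x n = 0}.Finite) :
    ∃ k : ℕ, ∀ t, cardFn x t = ((2 ^ k : ℕ) : Cardinal) * G x t := by
  classical
  have hfin : Finite {n // x n = 0} := hz.to_subtype
  have := Fintype.ofFinite {n // x n = 0}
  refine ⟨Fintype.card {n // x n = 0}, fun t => ?_⟩
  let E : (ℕ → Bool) ≃ ({n // x n = 0} → Bool) × ({n // ¬ x n = 0} → Bool) :=
    Equiv.piEquivPiSubtypeProd (fun n => x n = 0) (fun _ => Bool)
  have key : ∀ ε : ℕ → Bool, ∑' n, (if ε n = true then x n else 0) = f x (ext x (E ε).2) := by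
    intro ε
    unfold f
    apply tsum_congr
    intro n
    unfold ext
    by_cases h : x n = 0
    · simp [h]
    · simp [h, E]
  have F : {ε : ℕ → Bool // ∑' n, (if ε n = true then x n else 0) = t} ≃
      {σ : {n // ¬ x n = 0} → Bool // f x (ext x σ) = t} × ({n // x n = 0} → Bool) :=
    (Equiv.subtypeEquiv (E.trans (Equiv.prodComm _ _))
      (p := fun ε => ∑' n, (if ε n = true then x n else 0) = t)
      (q := fun q => f x (ext x q.1) = t) (fun ε => by rw [key ε]; rfl)).trans
      (Equiv.prodSubtypeFstEquivSubtypeProd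
        (p := fun σ : {n // ¬ x n = 0} → Bool => f x (ext x σ) = t))
  unfold cardFn G
  rw [Cardinal.mk_congr F, Cardinal.mk_prod, Cardinal.lift_id, Cardinal.lift_id]
  have h1 : #({n // x n = 0} → Bool) = ((2 ^ Fintype.card {n // x n = 0} : ℕ) : Cardinal) := by
    rw [← Cardinal.power_def, Cardinal.mk_bool, Cardinal.mk_fintype]
    simp
  rw [h1, mul_comm]

/-- some value is represented exactly once by the nonzero terms. -/
lemma exists_unique_rep {x : ℕ → ℝ} (hx : Summable (fun n => |x n|)) : ∃ t, G x t = 1 := by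
  classical
  let σ0 : {n // ¬ x n = 0} → Bool := fun n => decide (x n.1 < 0)
  refine ⟨f x (ext x σ0), ?_⟩
  unfold G
  rw [Cardinal.eq_one_iff_unique]
  refine ⟨⟨?_⟩, ⟨⟨σ0, rfl⟩⟩⟩
  have huniq : ∀ σ : {n // ¬ x n = 0} → Bool, f x (ext x σ) = f x (ext x σ0) → σ = σ0 := by
    intro σ hσ
    have s1 := summable_f hx (ext x σ)
    have s2 := summable_f hx (ext x σ0)
    have h0 : ∑' n, ((if ext x σ n = true then x n else 0) - (if ext x σ0 n = true then x n else 0))
        = 0 := by
      rw [s1.tsum_sub s2]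
      unfold f at hσ
      rw [hσ]; ring
    have hnn : ∀ n, 0 ≤ (if ext x σ n = true then x n else 0)
        - (if ext x σ0 n = true then x n else 0) := by
      intro n
      unfold ext
      by_cases h : x n = 0
      · simp [h]
      · simp only [h, dite_false]
        by_cases hneg : x n < 0
        · simp only [σ0, hneg, decide_true, if_true]
          split_ifs <;> linarith
        · simp only [σ0, hneg, decide_false]
          push Not at hneg
          split_ifs <;> first | linarith | simp_all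
    have hz := (hasSum_zero_iff_of_nonneg hnn).1 (by
      have := (s1.sub s2).hasSum
      rw [h0] at this
      exact this)
    funext ⟨n, hn⟩
    have h3 := congrFun hz n
    simp only [Pi.zero_apply] at h3
    unfold ext at h3
    simp only [hn, dite_false] at h3
    by_cases hneg : x n < 0
    · simp only [σ0, hneg, decide_true, if_true] at h3 ⊢
      by_contra hcon
      rw [if_neg hcon] at h3
      linarith
    · simp only [σ0, hneg, decide_false] at h3 ⊢
      by_contra hcon
      have h4 : σ ⟨n, hn⟩ = true := by simpa using hcon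
      rw [if_pos h4] at h3
      simp at h3
      exact hn h3
  rintro ⟨σ, hσ⟩ ⟨τ, hτ⟩
  exact Subtype.ext ((huniq σ hσ).trans (huniq τ hτ).symm)

/-- Complete description of the ranges containing the continuum. -/
theorem result (C : Set Cardinal.{0}) (hK : C ⊆ K) (hc : 𝔠 ∈ C) :
    IsRange C ↔ (0 : Cardinal) ∈ C ∧ (C = {0, 𝔠} ∨
      ∃ k : ℕ, ((2 ^ k : ℕ) : Cardinal) ∈ C ∧ ∀ n : ℕ, (n : Cardinal) ∈ C → 2 ^ k ∣ n) := by
  constructor
  · rintro ⟨x, hx, rfl⟩
    refine ⟨zero_mem hx, ?_⟩
    by_cases hz : {n | x n = 0}.Infinite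
    · left
      apply Set.Subset.antisymm
      · rintro _ ⟨t, rfl⟩
        exact inf_zeros hz t
      · rintro κ (h | h)
        · rw [h]; exact zero_mem hx
        · rw [h]; exact hc
    · right
      rw [Set.not_infinite] at hz
      obtain ⟨k, hk⟩ := fin_zeros hz
      refine ⟨k, ?_, ?_⟩
      · obtain ⟨t, ht⟩ := exists_unique_rep hx
        exact ⟨t, by rw [hk t, ht, mul_one]⟩
      · rintro n ⟨t, ht⟩
        rw [hk t] at ht
        have h2 : G x t ≤ ((2 ^ k : ℕ) : Cardinal) * G x t := by
          have h3 : (1 : Cardinal) ≤ ((2 ^ k : ℕ) : Cardinal) := by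
            exact_mod_cast Nat.one_le_two_pow
          calc G x t = 1 * G x t := (one_mul _).symm
            _ ≤ _ := mul_le_mul_left h3 _
        rw [ht] at h2
        obtain ⟨g, hg⟩ := Cardinal.lt_aleph0.1 (lt_of_le_of_lt h2 (Cardinal.natCast_lt_aleph0))
        rw [hg] at ht
        exact ⟨g, by exact_mod_cast ht.symm⟩
  · rintro ⟨h0, hC | ⟨k, hk, hdvd⟩⟩
    · refine ⟨fun _ => 0, by simp, ?_⟩
      rw [hC]
      have h1 : cardFn (fun _ => 0) 0 = 𝔠 := by
        unfold cardFn
        rw [← Pool.Agent.Helper752.Card.mk_cantor]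
        exact Cardinal.mk_congr (Equiv.subtypeUnivEquiv (fun ε => by simp))
      have h2 : ∀ t : ℝ, t ≠ 0 → cardFn (fun _ => 0) t = 0 := by
        intro t ht
        unfold cardFn
        simp only [ite_self, tsum_zero]
        rw [Cardinal.mk_eq_zero_iff]
        exact ⟨fun ε => ht ε.2.symm⟩
      apply Set.Subset.antisymm
      · rintro _ ⟨t, rfl⟩
        by_cases ht : t = 0
        · right; rw [ht]; exact h1
        · left; exact h2 t ht
      · rintro κ (h | h)
        · exact ⟨1, by rw [h]; exact h2 1 one_ne_zero⟩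
        · exact ⟨0, by rw [h]; exact h1⟩
    · -- the set of finite values divided by `2 ^ k`
      have hpow : (2 ^ k : ℕ) ≠ 0 := by positivity
      let A : Set ℕ := {n | 1 ≤ n ∧ ((2 ^ k * n : ℕ) : Cardinal) ∈ C}
      have hA1 : (1 : ℕ) ∈ A := ⟨le_rfl, by rw [mul_one]; exact hk⟩
      obtain ⟨m, hm⟩ := (Set.to_countable A).exists_eq_range ⟨1, hA1⟩
      have hmA : ∀ n, m n ∈ A := fun n => by rw [hm]; exact ⟨n, rfl⟩
      have hm1 : ∀ n, 1 ≤ m n := fun n => (hmA n).1
      have back : ∀ (S : Pool.Agent.Helper752.Card.Sys) (hS : S.m = m) (x : ℕ → ℝ)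
          (hx : ∀ t, cardFn x t = ((2 ^ k : ℕ) : Cardinal) * #(S.Cls t))
          (hw : #(S.Cls (S.w 0)) = 𝔠), ∀ κ ∈ C, κ ≠ ℵ₀ → κ ∈ Set.range (cardFn x) := by
        intro S hS x hx hw κ hκ hne
        rcases hK hκ with ⟨n, rfl⟩ | h | h
        · have hκ' : ((n : ℕ) : Cardinal) ∈ C := hκ
          show ((n : ℕ) : Cardinal) ∈ Set.range (cardFn x)
          obtain ⟨n', rfl⟩ := hdvd n hκ'
          rcases Nat.eq_zero_or_pos n' with h | h
          · refine ⟨-1, ?_⟩
            rw [hx, Pool.Agent.Helper752.Card.Sys.empty_Cls (by norm_num), h]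
            simp
          · have : n' ∈ A := ⟨h, hκ'⟩
            rw [hm] at this
            obtain ⟨i, hi⟩ := this
            refine ⟨S.w i + S.p (i + 1), ?_⟩
            rw [hx, Pool.Agent.Helper752.Card.Sys.mfold_Cls, hS, hi]
            push_cast; rfl
        · exact absurd h hne
        · rw [h]
          exact ⟨S.w 0, by rw [hx, hw, Cardinal.nat_mul_continuum hpow]⟩
      have hmul : ∀ n, ((2 ^ k : ℕ) : Cardinal) * ((m n : ℕ) : Cardinal) ∈ C := by
        intro n
        have := (hmA n).2
        rw [Nat.cast_mul] at this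
        exact this
      by_cases hω : (ℵ₀ : Cardinal) ∈ C
      · obtain ⟨S, hS, hSp⟩ := Pool.Agent.Helper752.Card.exists_spe m hm1
        obtain ⟨x, hx1, hx2⟩ := S.realize k
        have hx2' : ∀ t, cardFn x t = ((2 ^ k : ℕ) : Cardinal) * #(S.Cls t) := hx2
        refine ⟨x, hx1, Set.Subset.antisymm ?_ ?_⟩
        · rintro _ ⟨t, rfl⟩
          rw [hx2']
          rcases Pool.Agent.Helper752.Card.Sys.values_spe hSp t with h | h | ⟨n, h⟩ | h | h
          · rw [h, mul_zero]; exact h0
          · rw [h, mul_one]; exact hk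
          · rw [h, hS]; exact hmul n
          · rw [h, Cardinal.nat_mul_aleph0 hpow]; exact hω
          · rw [h, Cardinal.nat_mul_continuum hpow]; exact hc
        · intro κ hκ
          by_cases hne : κ = ℵ₀
          · rw [hne]
            exact ⟨S.h 0 + S.p 1, by
              rw [hx2', Pool.Agent.Helper752.Card.Sys.omega_Cls hSp, Cardinal.nat_mul_aleph0 hpow]⟩
          · exact back S hS x hx2' (Pool.Agent.Helper752.Card.Sys.w0_spe hSp) κ hκ hne
      · obtain ⟨S, hS, hG⟩ := Pool.Agent.Helper752.Card.exists_gen m hm1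
        obtain ⟨x, hx1, hx2⟩ := S.realize k
        have hx2' : ∀ t, cardFn x t = ((2 ^ k : ℕ) : Cardinal) * #(S.Cls t) := hx2
        refine ⟨x, hx1, Set.Subset.antisymm ?_ ?_⟩
        · rintro _ ⟨t, rfl⟩
          rw [hx2']
          rcases Pool.Agent.Helper752.Card.Sys.values_gen hG t with h | h | ⟨n, h⟩ | h
          · rw [h, mul_zero]; exact h0
          · rw [h, mul_one]; exact hk
          · rw [h, hS]; exact hmul n
          · rw [h, Cardinal.nat_mul_continuum hpow]; exact hc
        · intro κ hκ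
          exact back S hS x hx2' (Pool.Agent.Helper752.Card.Sys.w0_gen hG) κ hκ
            (fun h => hω (h ▸ hκ))

end Pool.Agent.Results.MP_92898d_an.RangesWithContinuum
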